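import Pool.Agent.H.MP_3adc02_co.tr.Mrg

/-!
# From the merged structure back to the structure
-/

set_option linter.unusedSectionVars false

namespace Pool.Agent.Dj3

open Finset Pool.Agent.Dj Pool.Agent.Dj2

variable {V : Type} [Fintype V] [DecidableEq V]

/-- parity of the degrees from the parity of the cuts -/
theorem Back_par {L : Finset (Finset V)} (hL : Rg L) (hs : Dj2.Sep L) {G : List (V × V)}
    {x : V → ℤ} (h : ∀ X ∈ L, (2 : ℤ) ∣ ls G X - ∑ v ∈ X, x v) (v : V) :
    (2 : ℤ) ∣ ld G v - x v := by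
  have key : ∀ X ∈ L, (2 : ℤ) ∣ ∑ u ∈ X, (ld G u - x u) := by
    intro X hX
    rw [Finset.sum_sub_distrib]
    have h1 := dvd_sub (h X hX) (ls_par G X)
    have h2 : ls G X - ∑ v ∈ X, x v - (ls G X - ∑ v ∈ X, ld G v) =
        ∑ u ∈ X, ld G u - ∑ u ∈ X, x u := by ring
    rwa [h2] at h1
  have h1 := key _ (dn_mem hL v)
  have h2 := key _ (st_mem hL hs v)
  rw [← Finset.sum_erase_add _ _ (self_dn L v)] at h1
  exact (dvd_add_right h2).1 h1

variable {L : Finset (Finset V)} {Q : Finset V} {B : V → Finset V}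

/-- sums over all classes -/
theorem sum_cf_univ (g : V → ℤ) :
    ∑ c : Cs Q B, ∑ u ∈ cf Q B c.1, g u = ∑ u ∈ Q, g u := by
  rw [sum_cf]
  refine sum_congr ?_ fun _ _ => rfl
  rw [filter_true_of_mem]
  intro u hu
  exact ⟨⟨B u, mem_image_of_mem B hu⟩, mem_univ _, rfl⟩

/-- BACK. -/
theorem back {n : ℤ} {x : V → ℤ} (hL : Rg L) (hs : Dj2.Sep L)
    (hB : ∀ u ∈ Q, B u ⊆ (dn L u).erase u) (h : Gr (mg L Q B) n (mx x Q B)) : Gr L n x := by
  have hB' : ∀ u ∈ Q, B u ⊆ dn L u := fun u hu => (hB u hu).trans (erase_subset _ _)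
  obtain ⟨G₀, g1, g2⟩ := h
  have g3 := Back_par (rg_mg hL) (sep_mg hL hs hB) g1
  obtain ⟨G, k1, k2, k3⟩ := lred G₀
  have k4 : ∀ p, (2 : ℤ) ∣ ld G p - mx x Q B p := fun p => by
    have h1 := dvd_add (k1 p) (g3 p)
    rwa [sub_add_sub_cancel] at h1
  choose r hr M hM using fun c : Cs Q B => mt_cls (cf Q B c.1) (cf_nonempty c)
  obtain ⟨H, hH⟩ := ls_union M univ
  have k5 : ∀ c : Cs Q B, ld G (Sum.inr c) = (((cf Q B c.1).card % 2 : ℕ) : ℤ) := by
    intro c
    have a1 := k4 (Sum.inr c)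
    have a2 := k2 (Sum.inr c)
    have a3 := ld_nonneg G (Sum.inr c)
    have a4 : mx x Q B (Sum.inr c) = -((cf Q B c.1).card : ℤ) := rfl
    rw [a4] at a1
    omega
  obtain ⟨ρ, hρ⟩ : ∃ ρ : V ⊕ Cs Q B → V, ρ = Sum.elim id r := ⟨_, rfl⟩
  have hρl : ∀ v, ρ (Sum.inl v) = v := fun v => by rw [hρ]; rfl
  have hρr : ∀ c, ρ (Sum.inr c) = r c := fun c => by rw [hρ]; rfl
  refine ⟨G.map (fun e => (ρ e.1, ρ e.2)) ++ H, fun X hX => ?_, fun X hX hX1 hX2 => ?_⟩
  · rw [ls_append, hH]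
    have p1 := ls_image_par G ρ X
    rw [Fintype.sum_sum_type] at p1
    simp only [hρl, hρr, k5] at p1
    have p2 : (2 : ℤ) ∣ ∑ c : Cs Q B, (ls (M c) X + (((cf Q B c.1).card % 2 : ℕ) : ℤ) * ind X (r c) -
        ∑ v ∈ cf Q B c.1, ind X v) := dvd_sum fun c _ => (hM c X).2.2
    rw [sum_sub_distrib, sum_add_distrib, sum_cf_univ] at p2
    have p3 : (2 : ℤ) ∣ ∑ v, ind X v * (ld G (Sum.inl v) - (x v + if v ∈ Q then 1 else 0)) :=
      dvd_sum fun v _ => dvd_mul_of_dvd_right (k4 (Sum.inl v)) _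
    have p4 : ∑ v, ind X v * (ld G (Sum.inl v) - (x v + if v ∈ Q then 1 else 0)) =
        ∑ v, ind X v * ld G (Sum.inl v) - (∑ v ∈ X, x v + ∑ v ∈ Q, ind X v) := by
      have e1 : ∑ v ∈ X, x v = ∑ v, ind X v * x v := by
        rw [← sum_filter_add_sum_filter_not univ (fun v => v ∈ X)]
        have e2 : ∑ v ∈ univ.filter (fun v => v ∉ X), ind X v * x v = 0 :=
          sum_eq_zero fun v hv => by
            rw [ind_of_not_mem (mem_filter.1 hv).2, zero_mul]
        have e3 : ∑ v ∈ univ.filter (fun v => v ∈ X), ind X v * x v = ∑ v ∈ X, x v := by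
          rw [filter_univ_mem]
          exact sum_congr rfl fun v hv => by rw [ind_of_mem hv, one_mul]
        rw [e2, e3, add_zero]
      have e4 : ∑ v ∈ Q, ind X v = ∑ v, ind X v * (if v ∈ Q then 1 else 0) := by
        simp only [mul_ite, mul_one, mul_zero]
        rw [← sum_filter, filter_univ_mem]
      rw [e1, e4, ← sum_add_distrib, ← sum_sub_distrib]
      exact sum_congr rfl fun v _ => by ring
    rw [p4] at p3
    have p5 := dvd_add p1 (dvd_add p2 p3)
    have p6 : ls (G.map fun e => (ρ e.1, ρ e.2)) X + ∑ c, ls (M c) X - ∑ v ∈ X, x v =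
        (ls (G.map fun e => (ρ e.1, ρ e.2)) X -
          (∑ v, ind X v * ld G (Sum.inl v) +
            ∑ c : Cs Q B, ind X (r c) * (((cf Q B c.1).card % 2 : ℕ) : ℤ)) +
        (∑ c, ls (M c) X + ∑ c : Cs Q B, (((cf Q B c.1).card % 2 : ℕ) : ℤ) * ind X (r c) -
            ∑ v ∈ Q, ind X v +
          (∑ v, ind X v * ld G (Sum.inl v) - (∑ v ∈ X, x v + ∑ v ∈ Q, ind X v)))) +
        2 * ∑ v ∈ Q, ind X v := by
      have e5 : ∑ c : Cs Q B, ind X (r c) * (((cf Q B c.1).card % 2 : ℕ) : ℤ) =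
          ∑ c : Cs Q B, (((cf Q B c.1).card % 2 : ℕ) : ℤ) * ind X (r c) :=
        sum_congr rfl fun c _ => mul_comm _ _
      rw [e5]
      ring
    rw [p6]
    exact dvd_add p5 (dvd_mul_right _ _)
  · rw [ls_append, hH]
    have q1 := ls_image_le G ρ X (up Q B X)
    rw [Fintype.sum_sum_type] at q1
    have q2 : ∑ v : V, |ind X (ρ (Sum.inl v)) - ind (up Q B X) (Sum.inl v)| * ld G (Sum.inl v) =
        0 := by
      refine sum_eq_zero fun v _ => ?_
      have e1 : ind (up Q B X) (Sum.inl v) = ind X v := by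
        unfold ind
        simp only [mem_up_left]
      rw [hρl, e1, sub_self, abs_zero, zero_mul]
    rw [q2, zero_add] at q1
    have q3 : ∀ c : Cs Q B, ls (M c) X +
        |ind X (ρ (Sum.inr c)) - ind (up Q B X) (Sum.inr c)| * ld G (Sum.inr c) ≤
        ∑ u ∈ cf Q B c.1, if u ∉ X ∧ B u ⊆ X then 1 else 0 := by
      intro c
      obtain ⟨m1, m2, -⟩ := hM c X
      rw [hρr, k5]
      by_cases hc : c.1 ⊆ X
      · have e1 : ind (up Q B X) (Sum.inr c) = 1 := ind_of_mem (mem_up_right.2 hc)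
        have e2 : |ind X (r c) - 1| = 1 - ind X (r c) := by
          rw [abs_sub_comm, abs_of_nonneg (by linarith [ind_le_one X (r c)])]
        have e3 : ∑ u ∈ cf Q B c.1, (if u ∉ X ∧ B u ⊆ X then (1 : ℤ) else 0) =
            ∑ v ∈ cf Q B c.1, (1 - ind X v) := by
          refine sum_congr rfl fun u hu => ?_
          have hBu : B u ⊆ X := by rw [(mem_cf.1 hu).2]; exact hc
          by_cases hu' : u ∈ X
          · rw [if_neg (fun h => h.1 hu'), ind_of_mem hu', sub_self]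
          · rw [if_pos ⟨hu', hBu⟩, ind_of_not_mem hu', sub_zero]
        rw [e1, e2, e3, mul_comm (1 - ind X (r c))]
        exact m1
      · have e1 : ind (up Q B X) (Sum.inr c) = 0 := ind_of_not_mem fun h => hc (mem_up_right.1 h)
        have e4 : ∀ u ∈ cf Q B c.1, u ∉ X := by
          intro u hu hu'
          apply hc
          rw [← (mem_cf.1 hu).2]
          exact (hB' u (mem_cf.1 hu).1).trans (dn_sub hX hu')
        have e2 : ind X (r c) = 0 := ind_of_not_mem (e4 _ (hr c))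
        have e3 : ∑ u ∈ cf Q B c.1, (if u ∉ X ∧ B u ⊆ X then (1 : ℤ) else 0) = 0 := by
          refine sum_eq_zero fun u hu => ?_
          rw [if_neg]
          rintro ⟨-, h1⟩
          rw [(mem_cf.1 hu).2] at h1
          exact hc h1
        have e5 : ∑ v ∈ cf Q B c.1, ind X v = 0 :=
          sum_eq_zero fun u hu => ind_of_not_mem (e4 u hu)
        rw [e1, e2, e3, sub_self, abs_zero, zero_mul, add_zero]
        rw [e5] at m2
        exact m2
    have q4 : ∑ c : Cs Q B, (ls (M c) X +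
        |ind X (ρ (Sum.inr c)) - ind (up Q B X) (Sum.inr c)| * ld G (Sum.inr c)) ≤
        ((dd Q B X).card : ℤ) := by
      refine (sum_le_sum fun c _ => q3 c).trans ?_
      rw [sum_cf_univ, sum_boole]
      exact le_rfl
    rw [sum_add_distrib] at q4
    have q5 := g2 _ (up_mem hB' hX) (by
      obtain ⟨v, hv⟩ := hX1
      exact ⟨Sum.inl v, mem_up_left.2 hv⟩) (fun he => by
      apply hX2
      rw [eq_univ_iff_forall]
      intro v
      rw [← mem_up_left (Q := Q) (B := B), he]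
      exact mem_univ _)
    rw [sum_up hB' x hX] at q5
    have q6 := k3 (up Q B X)
    linarith

end Pool.Agent.Dj3
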