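import Pool.Agent.H.MP_3adc02_co.tr.Back
import Pool.Agent.H.MP_3adc02_co.fs.Term
import Pool.Agent.H.MP_3adc02_co.fs.Base

/-!
# Trimming and merging on both sides
-/

set_option linter.unusedSectionVars false

namespace Pool.Agent.Dj3

open Finset Pool.Agent.Dj Pool.Agent.Dj2

variable {V : Type} [Fintype V] [DecidableEq V]

/-- ONE SIDE. -/
theorem one_side {L : Finset (Finset V)} (hL : Rg L) (hs : Dj2.Sep L) {n : ℤ} (hn : 2 ∣ n)
    (hn0 : 0 ≤ n) {x : V → ℤ} (hx : Fr L n x) (Q A : Finset V)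
    (hQ : ∀ u ∈ Q, x u < 0 ∧ ¬ 2 ∣ x u)
    (hA : ∀ u ∈ Q, (dn L u).erase u ⊆ A ∧ 2 ≤ ((dn L u).erase u).card) :
    ∃ (C : Type) (_ : Fintype C) (_ : DecidableEq C) (L' : Finset (Finset (V ⊕ C)))
      (x' : V ⊕ C → ℤ), Rg L' ∧ Dj2.Sep L' ∧ Fr L' n x' ∧
      (∀ v, v ∉ Q → x' (Sum.inl v) = x v) ∧ (∀ v ∈ Q, 2 ∣ x' (Sum.inl v)) ∧
      Fintype.card C ≤ A.card.choose 2 ∧
      (∀ v w, Sum.inl w ∈ dn L' (Sum.inl v) ↔ w ∈ dn L v) ∧
      (∀ w c, Sum.inl w ∈ dn L' (Sum.inr c) → ∃ s ∈ A, w ∈ dn L s) ∧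
      (Gr L' n x' → Gr L n x) := by
  obtain ⟨B, hB, hT⟩ := trim hL Q _ (fun u => (dn L u).erase u) le_rfl
    (fun u hu => ⟨subset_rfl, (hA u hu).2⟩) (tm_pred hL hn hn0 hx Q hQ)
  have hB1 : ∀ u ∈ Q, B u ⊆ (dn L u).erase u := fun u hu => (hB u hu).1
  have hB2 : ∀ u ∈ Q, B u ⊆ dn L u := fun u hu => (hB1 u hu).trans (erase_subset _ _)
  have hB3 : ∀ u ∈ Q, (B u).Nonempty := fun u hu => by
    rw [← card_pos, (hB u hu).2]
    norm_num
  refine ⟨Cs Q B, inferInstance, inferInstance, mg L Q B, mx x Q B, rg_mg hL, sep_mg hL hs hB1,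
    fr_mg hx hB3 hT, fun v hv => ?_, fun v hv => ?_, ?_, fun v w => ?_, fun w c h => ?_,
    back hL hs hB1⟩
  · show x v + (if v ∈ Q then 1 else 0) = x v
    rw [if_neg hv, add_zero]
  · show 2 ∣ x v + (if v ∈ Q then 1 else 0)
    rw [if_pos hv]
    have := (hQ v hv).2
    omega
  · rw [Fintype.card_coe, ← card_powersetCard]
    refine card_le_card fun c hc => ?_
    obtain ⟨u, hu, rfl⟩ := mem_image.1 hc
    exact mem_powersetCard.2 ⟨(hB1 u hu).trans (hA u hu).1, (hB u hu).2⟩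
  · constructor
    · intro h
      refine mem_dn.2 fun X hX hv => ?_
      exact mem_up_left.1 (mem_dn.1 h (up Q B X) (up_mem hB2 hX) (mem_up_left.2 hv))
    · intro h
      refine mem_dn.2 fun Z hZ hv => ?_
      exact mem_toLeft.1 (mem_dn.1 h Z.toLeft (mem_mg.1 hZ).1 (mem_toLeft.2 hv))
  · have hX : c.1.biUnion (dn L) ∈ L := hL.biUnion _ _ fun i _ => dn_mem hL i
    have h1 := mem_dn.1 h (up Q B _) (up_mem hB2 hX)
      (mem_up_right.2 fun v hv => mem_biUnion.2 ⟨v, hv, self_dn L v⟩)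
    obtain ⟨s, hs1, hs2⟩ := mem_biUnion.1 (mem_up_left.1 h1)
    obtain ⟨u, hu, hc⟩ := mem_image.1 c.2
    rw [← hc] at hs1
    exact ⟨s, (hA u hu).1 (hB1 u hu hs1), hs2⟩

/-- the points below an odd point in the final structure -/
theorem pred_odd {L : Finset (Finset V)} {n : ℤ} (hn : 2 ∣ n) {x : V → ℤ} (h0 : ∑ v, x v = 0)
    (h : Fin3 L n x) {s : ℕ} (f : Fin s → V) (hf : ∀ v, ∃ i, f i ∈ dn L v) {v : V}
    (hv : ¬ (2 : ℤ) ∣ x v) {p : V} (hp : p ∈ (dn L v).erase v) :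
    x p = n ∧ {p} ∈ L ∧ ∃ i, f i = p := by
  obtain ⟨hpv, hp1⟩ := mem_erase.1 hp
  obtain ⟨X, hX, h1, h2, h3⟩ := h.H2 p v hp1 hpv
  have h4 : X ≠ univ := by
    rintro rfl
    exact h2 (mem_univ _)
  rcases h.H1 X hX ⟨p, h1⟩ h4 h3 with h5 | h5
  · have h6 : X = {p} := by
      refine Subset.antisymm (fun y hy => mem_singleton.2 ?_) (singleton_subset_iff.2 h1)
      exact card_le_one.1 h5 y hy p h1
    rw [h6, sum_singleton] at h3
    refine ⟨h3, h6 ▸ hX, ?_⟩
    obtain ⟨i, hi⟩ := hf p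
    refine ⟨i, ?_⟩
    have h7 := dn_sub hX h1 hi
    rw [h6] at h7
    exact mem_singleton.1 h7
  · exfalso
    have h6 : Xᶜ = {v} := by
      refine Subset.antisymm (fun y hy => mem_singleton.2 ?_)
        (singleton_subset_iff.2 (mem_compl.2 h2))
      exact card_le_one.1 h5 y hy v (mem_compl.2 h2)
    have h8 : ∑ w ∈ X, x w + ∑ w ∈ Xᶜ, x w = 0 := by
      rw [sum_add_sum_compl]
      exact h0
    rw [h6, sum_singleton] at h8
    apply hv
    have h7 : x v = - n := by linarith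
    rw [h7]
    exact (dvd_neg).2 hn

/-- an odd negative point has at least two points below -/
theorem pred_two {L : Finset (Finset V)} (hL : Rg L) {n : ℤ} (hn : 2 ∣ n) (hn0 : 0 ≤ n)
    {x : V → ℤ} (hx : Fr L n x) (h : Fin3 L n x) {s : ℕ} (f : Fin s → V)
    (hf : ∀ v, ∃ i, f i ∈ dn L v) {v : V} (hv : ¬ (2 : ℤ) ∣ x v) (hv' : x v < 0) :
    2 ≤ ((dn L v).erase v).card := by
  by_contra hlt
  have h1 : ∑ u ∈ (dn L v).erase v, x u + x v = ∑ u ∈ dn L v, x u :=
    sum_erase_add _ _ (self_dn L v)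
  have h2 : ∑ u ∈ (dn L v).erase v, x u = ((dn L v).erase v).card * n := by
    rw [sum_congr rfl fun u hu => (pred_odd hn hx.1 h f hf hv hu).1, sum_const, nsmul_eq_mul]
  have h3 : ((dn L v).erase v).card = 0 ∨ ((dn L v).erase v).card = 1 := by omega
  by_cases h4 : dn L v = univ
  · have h5 : ∑ u ∈ dn L v, x u = 0 := by rw [h4]; exact hx.1
    rcases h3 with h6 | h6
    · rw [h6] at h2
      norm_num at h2
      apply hv
      have : x v = 0 := by linarith
      rw [this]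
      exact dvd_zero _
    · rw [h6] at h2
      norm_num at h2
      apply hv
      have : x v = - n := by linarith
      rw [this]
      exact (dvd_neg).2 hn
  · have h5 := hx.2 _ (dn_mem hL v) ⟨v, self_dn L v⟩ h4
    rcases h3 with h6 | h6
    · rw [h6] at h2
      norm_num at h2
      linarith
    · rw [h6] at h2
      norm_num at h2
      linarith

/-- BOTH SIDES. -/
theorem base_tr {L : Finset (Finset V)} (hL : Rg L) (hs : Dj2.Sep L) (a k : ℕ) (hk : 2 ^ a ≤ k)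
    {x : V → ℤ} (hx : Fr L (2 * k) x) (hF : Fin3 L (2 * k) x) {s t : ℕ}
    (hst : s.choose 2 + t.choose 2 ≤ 2 ^ (a + 2) + 1) (f : Fin s → V)
    (hf : ∀ v, ∃ i, f i ∈ dn L v) (g : Fin t → V) (hg : ∀ v, ∃ i, v ∈ dn L (g i)) :
    Gr L (2 * k) x := by
  obtain ⟨n, hnd⟩ : ∃ n : ℤ, n = 2 * (k : ℤ) := ⟨_, rfl⟩
  have hn : (2 : ℤ) ∣ n := by rw [hnd]; exact dvd_mul_right _ _
  have hn0 : 0 ≤ n := by rw [hnd]; positivity
  rw [← hnd] at hx hF ⊢
  have hFc := hF.cp hx.1
  have hxc := fr_cp hx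
  have hgc : ∀ v, ∃ i, g i ∈ dn (cp L) v := fun v => by
    obtain ⟨i, hi⟩ := hg v
    exact ⟨i, mem_dn_cp.2 hi⟩
  -- first side
  obtain ⟨Q, hQd⟩ : ∃ Q, Q = (od x).filter fun v => x v < 0 := ⟨_, rfl⟩
  obtain ⟨A, hAd⟩ : ∃ A, A = (univ.image f).filter fun p => x p = n ∧ {p} ∈ L := ⟨_, rfl⟩
  have hQm : ∀ v, v ∈ Q ↔ ¬ (2 : ℤ) ∣ x v ∧ x v < 0 := fun v => by
    rw [hQd, mem_filter, mem_od]
  have hAm : ∀ v, v ∈ A ↔ (∃ i, f i = v) ∧ x v = n ∧ {v} ∈ L := fun v => by
    rw [hAd, mem_filter, mem_image]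
    simp
  have hAc : A.card ≤ s := by
    rw [hAd]
    refine (card_filter_le _ _).trans (card_image_le.trans ?_)
    rw [card_univ, Fintype.card_fin]
  obtain ⟨C, iC1, iC2, L', x', r1, r2, r3, r4, r5, r6, r7, r8, r9⟩ := one_side hL hs hn hn0 hx Q A
    (fun u hu => ⟨((hQm u).1 hu).2, ((hQm u).1 hu).1⟩) (fun u hu => by
      obtain ⟨h1, h2⟩ := (hQm u).1 hu
      refine ⟨fun p hp => ?_, pred_two hL hn hn0 hx hF f hf h1 h2⟩
      obtain ⟨h3, h4, h5⟩ := pred_odd hn hx.1 hF f hf h1 hp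
      exact (hAm p).2 ⟨h5, h3, h4⟩)
  apply r9
  apply gr_cp r3.1
  -- second side
  obtain ⟨P, hPd⟩ : ∃ P, P = (od x).filter fun v => 0 < x v := ⟨_, rfl⟩
  obtain ⟨D, hDd⟩ : ∃ D, D = (univ.image g).filter fun p => - x p = n := ⟨_, rfl⟩
  have hPm : ∀ v, v ∈ P ↔ ¬ (2 : ℤ) ∣ x v ∧ 0 < x v := fun v => by
    rw [hPd, mem_filter, mem_od]
  have hDm : ∀ v, v ∈ D ↔ (∃ i, g i = v) ∧ - x v = n := fun v => by
    rw [hDd, mem_filter, mem_image]
    simp
  have hDc : D.card ≤ t := by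
    rw [hDd]
    refine (card_filter_le _ _).trans (card_image_le.trans ?_)
    rw [card_univ, Fintype.card_fin]
  have hPQ : ∀ v ∈ P, v ∉ Q := fun v hv hv' => by
    have h1 := ((hPm v).1 hv).2
    have h2 := ((hQm v).1 hv').2
    linarith
  obtain ⟨C2, iC3, iC4, L2, x2, t1, t2, t3, t4, t5, t6, -, -, t9⟩ :=
    one_side (rg_cp r1) (sep_cp r2) hn hn0 (fr_cp r3) (P.map Function.Embedding.inl)
      (D.map Function.Embedding.inl)
      (fun u hu => by
        obtain ⟨v, hv, rfl⟩ := mem_map.1 hu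
        obtain ⟨h1, h2⟩ := (hPm v).1 hv
        have h3 : x' (Sum.inl v) = x v := r4 v (hPQ v hv)
        show - x' (Sum.inl v) < 0 ∧ ¬ (2 : ℤ) ∣ - x' (Sum.inl v)
        rw [h3, dvd_neg]
        exact ⟨by linarith, h1⟩)
      (fun u hu => by
        obtain ⟨v, hv, rfl⟩ := mem_map.1 hu
        obtain ⟨h1, h2⟩ := (hPm v).1 hv
        have h1' : ¬ (2 : ℤ) ∣ (fun v => - x v) v := by
          show ¬ (2 : ℤ) ∣ - x v
          rw [dvd_neg]
          exact h1
        have h2' : (fun v => - x v) v < 0 := by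
          show - x v < 0
          linarith
        show (dn (cp L') (Sum.inl v)).erase (Sum.inl v) ⊆ _ ∧
          2 ≤ ((dn (cp L') (Sum.inl v)).erase (Sum.inl v)).card
        constructor
        · intro p hp
          obtain ⟨hp1, hp2⟩ := mem_erase.1 hp
          rw [mem_dn_cp] at hp2
          rcases p with w | c
          · have h3 : w ∈ (dn (cp L) v).erase v :=
              mem_erase.2 ⟨fun h => hp1 (by rw [h]), mem_dn_cp.2 ((r7 w v).1 hp2)⟩
            obtain ⟨h4, -, h5⟩ := pred_odd hn hxc.1 hFc g hgc h1' h3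
            exact mem_map.2 ⟨w, (hDm w).2 ⟨h5, h4⟩, rfl⟩
          · exfalso
            obtain ⟨q, hq1, hq2⟩ := r8 v c hp2
            obtain ⟨-, h4, h5⟩ := (hAm q).1 hq1
            have h6 := mem_singleton.1 (dn_sub h5 (mem_singleton_self q) hq2)
            apply h1
            rw [h6, h4]
            exact hn
        · refine (pred_two (rg_cp hL) hn hn0 hxc hFc g hgc h1' h2').trans ?_
          rw [← card_map (Function.Embedding.inl : V ↪ V ⊕ C)]
          refine card_le_card fun p hp => ?_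
          obtain ⟨w, hw, rfl⟩ := mem_map.1 hp
          obtain ⟨hw1, hw2⟩ := mem_erase.1 hw
          refine mem_erase.2 ⟨fun h => hw1 (Sum.inl_injective h), ?_⟩
          rw [mem_dn_cp] at hw2 ⊢
          exact (r7 w v).2 hw2)
  apply t9
  -- the odd points
  have hod : (od x2).card ≤ Fintype.card C + Fintype.card C2 := by
    have h1 : od x2 ⊆ (univ.image fun c : C => (Sum.inl (Sum.inr c) : (V ⊕ C) ⊕ C2)) ∪
        univ.image fun d : C2 => Sum.inr d := by
      intro p hp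
      rw [mem_od] at hp
      rcases p with (v | c) | d
      · exfalso
        by_cases hvP : v ∈ P
        · exact hp (t5 _ (mem_map.2 ⟨v, hvP, rfl⟩))
        · have h2 : x2 (Sum.inl (Sum.inl v)) = - x' (Sum.inl v) := t4 _ (fun h => by
            obtain ⟨w, hw, he⟩ := mem_map.1 h
            have : w = v := Sum.inl_injective he
            exact hvP (this ▸ hw))
          rw [h2, dvd_neg] at hp
          by_cases hvQ : v ∈ Q
          · exact hp (r5 v hvQ)
          · rw [r4 v hvQ] at hp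
            rcases lt_trichotomy (x v) 0 with h3 | h3 | h3
            · exact hvQ ((hQm v).2 ⟨hp, h3⟩)
            · rw [h3] at hp
              exact hp (dvd_zero _)
            · exact hvP ((hPm v).2 ⟨hp, h3⟩)
      · exact mem_union_left _ (mem_image.2 ⟨c, mem_univ _, rfl⟩)
      · exact mem_union_right _ (mem_image.2 ⟨d, mem_univ _, rfl⟩)
    refine (card_le_card h1).trans ((card_union_le _ _).trans ?_)
    exact add_le_add (card_image_le.trans (by rw [card_univ]))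
      (card_image_le.trans (by rw [card_univ]))
  have h1 : Fintype.card C ≤ s.choose 2 := r6.trans (Nat.choose_le_choose 2 hAc)
  have h2 : Fintype.card C2 ≤ t.choose 2 := t6.trans (Nat.choose_le_choose 2 (by
    rw [card_map]
    exact hDc))
  rw [hnd] at t3 ⊢
  exact base t1 t2 a k hk t3 (by omega)

end Pool.Agent.Dj3
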