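import Pool.Agent.H.MP_3adc02_co.fs.Dig
import Pool.Agent.H.MP_3adc02_co.tr.Main

/-!
# Few sources and sinks with trimming: digraphs
-/

set_option linter.unusedSectionVars false

namespace Pool.Agent.Dj3

open Finset Pool.Agent.Dj Pool.Agent.Dj2

variable {V : Type} [Fintype V] [DecidableEq V]

theorem tr_few_sep {m : ℕ} (tail head : Fin m → V) (J : Finset (Fin m)) (a k : ℕ)
    (hs : Dj2.Sep (dic tail head)) (hk : 2 ^ a ≤ k)
    (hJ : ∀ U ∈ dic tail head, 2 * k ≤ ct tail head J U) {s t : ℕ}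
    (hst : s.choose 2 + t.choose 2 ≤ 2 ^ (a + 2) + 1) (f : Fin s → V)
    (hf : ∀ v, ∃ i, ∀ U ∈ dic tail head, v ∈ U → f i ∈ U) (g : Fin t → V)
    (hg : ∀ v, ∃ i, ∀ U ∈ dic tail head, g i ∈ U → v ∈ U) :
    ∃ J₁ : Finset (Fin m), J₁ ⊆ J ∧ ∀ U ∈ dic tail head, k ≤ ct tail head J₁ U ∧
      k ≤ ct tail head (J \ J₁) U := by
  have hcl : ∀ X ∈ dic tail head, ∀ e, head e ∈ X → tail e ∈ X :=
    fun X hX => (mem_dic.1 hX).2.2
  have hV : ∑ v, nt tail head J v = 0 := by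
    have h1 := sum_nt tail head J univ (fun _ _ => mem_univ _)
    rw [h1]
    unfold ct
    rw [filter_false_of_mem]
    · simp
    · intro e _ he
      exact he.2 (mem_univ _)
  have hFr : Fr (cs tail head) (2 * k) (nt tail head J) := by
    refine ⟨hV, fun X hX h1 h2 => ?_⟩
    rw [sum_nt tail head J X (mem_cs.1 hX)]
    exact_mod_cast hJ X (dic_cs.2 ⟨hX, h1, h2⟩)
  have hsub : dic tail head ⊆ cs tail head := fun X hX => (dic_cs.1 hX).1
  have hs' : Dj2.Sep (cs tail head) := fun u v h => hs u v (sm_mono hsub h)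
  have hdn : ∀ u v, (∀ U ∈ dic tail head, v ∈ U → u ∈ U) → u ∈ dn (cs tail head) v := by
    intro u v h
    refine mem_dn.2 fun X hX hv => ?_
    by_cases h1 : X = univ
    · rw [h1]; exact mem_univ _
    · exact h X (dic_cs.2 ⟨hX, ⟨v, hv⟩, h1⟩) hv
  obtain ⟨G, h1, h2⟩ := tr_main a k hk s t hst _ _ _ V (cs tail head) (nt tail head J) le_rfl le_rfl
    le_rfl (rg_cs tail head) hFr f
    (fun v => by obtain ⟨i, hi⟩ := hf v; exact ⟨i, hdn _ _ hi⟩) g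
    (fun v => by obtain ⟨i, hi⟩ := hg v; exact ⟨i, hdn _ _ hi⟩)
  obtain ⟨r, I, p, q, h3, h4⟩ := of_list G
  refine split_gen tail head J k (dic tail head) hcl I p q ?_ ?_
  · intro v
    rw [← h4]
    exact ld_par (rg_cs tail head) hs' h1 v
  · intro X hX
    obtain ⟨h5, h6, h7⟩ := dic_cs.1 hX
    have h8 := h2 X h5 h6 h7
    rw [h3, sum_nt tail head J X (hcl X hX)] at h8
    exact h8

theorem tr_few {m : ℕ} (tail head : Fin m → V) (J : Finset (Fin m)) (a k : ℕ) (hk : 2 ^ a ≤ k)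
    (hJ : ∀ U ∈ dic tail head, 2 * k ≤ ct tail head J U) {s t : ℕ}
    (hst : s.choose 2 + t.choose 2 ≤ 2 ^ (a + 2) + 1) (f : Fin s → V)
    (hf : ∀ v, ∃ i, ∀ U ∈ dic tail head, v ∈ U → f i ∈ U) (g : Fin t → V)
    (hg : ∀ v, ∃ i, ∀ U ∈ dic tail head, g i ∈ U → v ∈ U) :
    ∃ J₁ : Finset (Fin m), J₁ ⊆ J ∧ ∀ U ∈ dic tail head, k ≤ ct tail head J₁ U ∧
      k ≤ ct tail head (J \ J₁) U := by
  obtain ⟨V', _, _, π, h0, h1, h2, h3, -⟩ := quo2 tail head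
  obtain ⟨J₁, h5, h6⟩ := tr_few_sep (π ∘ tail) (π ∘ head) J a k h3 hk
    (fun U' hU' => by
      obtain ⟨U, hU, -, hU2⟩ := h2 U' hU'
      rw [← hU2]
      exact hJ U hU) hst (fun i => π (f i))
    (fun v' => by
      obtain ⟨v, rfl⟩ := h0 v'
      obtain ⟨i, hi⟩ := hf v
      refine ⟨i, fun U' hU' hv => ?_⟩
      obtain ⟨U, hU, hm, -⟩ := h2 U' hU'
      exact (hm _).2 (hi U hU ((hm _).1 hv))) (fun i => π (g i))
    (fun v' => by
      obtain ⟨v, rfl⟩ := h0 v'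
      obtain ⟨i, hi⟩ := hg v
      refine ⟨i, fun U' hU' hv => ?_⟩
      obtain ⟨U, hU, hm, -⟩ := h2 U' hU'
      exact (hm _).2 (hi U hU ((hm _).1 hv)))
  refine ⟨J₁, h5, fun U hU => ?_⟩
  obtain ⟨U', hU', -, hU2⟩ := h1 U hU
  rw [hU2, hU2]
  exact h6 U' hU'

/-- the theorem with sets of vertices -/
theorem tr_few_sets {n m : ℕ} (tail head : Fin m → Fin n) (J : Finset (Fin m)) (a k : ℕ)
    (hk : 2 ^ a ≤ k)
    (hJ : ∀ U : Finset (Fin n), U.Nonempty → U ≠ Finset.univ → (∀ e : Fin m, head e ∈ U → tail e ∈ U) →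
      2 * k ≤ (J.filter (fun e => tail e ∈ U ∧ head e ∉ U)).card)
    (S T : Finset (Fin n))
    (hST : S.card.choose 2 + T.card.choose 2 ≤ 2 ^ (a + 2) + 1)
    (hS : ∀ v, ∃ u ∈ S, Relation.ReflTransGen (fun b c => ∃ e, tail e = b ∧ head e = c) u v)
    (hT : ∀ v, ∃ u ∈ T, Relation.ReflTransGen (fun b c => ∃ e, tail e = b ∧ head e = c) v u) :
    ∃ J₁ ⊆ J, (∀ U : Finset (Fin n), U.Nonempty → U ≠ Finset.univ →
        (∀ e : Fin m, head e ∈ U → tail e ∈ U) →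
        k ≤ (J₁.filter (fun e => tail e ∈ U ∧ head e ∉ U)).card) ∧
      (∀ U : Finset (Fin n), U.Nonempty → U ≠ Finset.univ →
        (∀ e : Fin m, head e ∈ U → tail e ∈ U) →
        k ≤ ((J \ J₁).filter (fun e => tail e ∈ U ∧ head e ∉ U)).card) := by
  have hr : ∀ u v, Relation.ReflTransGen (fun b c => ∃ e, tail e = b ∧ head e = c) u v →
      ∀ U ∈ dic tail head, v ∈ U → u ∈ U := by
    intro u v h U hU
    induction h with
    | refl => exact id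
    | tail _ h2 ih =>
      obtain ⟨e, rfl, rfl⟩ := h2
      exact fun hv => ih ((mem_dic.1 hU).2.2 e hv)
  obtain ⟨J₁, h1, h3⟩ := tr_few tail head J a k hk
    (fun U hU => hJ U (mem_dic.1 hU).1 (mem_dic.1 hU).2.1 (mem_dic.1 hU).2.2) hST
    (fun i => (S.equivFin.symm i : Fin n))
    (fun v => by
      obtain ⟨u, hu, huv⟩ := hS v
      refine ⟨S.equivFin ⟨u, hu⟩, fun U hU hv => ?_⟩
      rw [Equiv.symm_apply_apply]
      exact hr u v huv U hU hv)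
    (fun i => (T.equivFin.symm i : Fin n))
    (fun v => by
      obtain ⟨u, hu, huv⟩ := hT v
      refine ⟨T.equivFin ⟨u, hu⟩, fun U hU hv => ?_⟩
      rw [Equiv.symm_apply_apply] at hv
      exact hr v u huv U hU hv)
  exact ⟨J₁, h1, fun U hU1 hU2 hU3 => (h3 U (mem_dic.2 ⟨hU1, hU2, hU3⟩)).1,
    fun U hU1 hU2 hU3 => (h3 U (mem_dic.2 ⟨hU1, hU2, hU3⟩)).2⟩

end Pool.Agent.Dj3
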