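import Pool.Agent.H.MP_3adc02_co.fs.Def

/-!
# Pairing the points of a set, images of lists of pairs
-/

set_option linter.unusedSectionVars false

namespace Pool.Agent.Dj3

open Finset Pool.Agent.Dj Pool.Agent.Dj2

variable {V : Type} [Fintype V] [DecidableEq V]

/-- the points of a set of even size can be paired -/
theorem mt_even : ∀ (N : ℕ) (F : Finset V), F.card ≤ N → Even F.card →
    ∃ M : List (V × V), ∀ X : Finset V, ls M X ≤ ∑ v ∈ F, (1 - ind X v) ∧
      ls M X ≤ ∑ v ∈ F, ind X v ∧ (2 : ℤ) ∣ ls M X - ∑ v ∈ F, ind X v := by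
  intro N
  induction N with
  | zero =>
    intro F hF _
    have h0 : F = ∅ := card_eq_zero.1 (by omega)
    refine ⟨[], fun X => ?_⟩
    rw [h0, ls_nil]
    simp
  | succ N ih =>
    intro F hF hev
    by_cases h0 : F = ∅
    · refine ⟨[], fun X => ?_⟩
      rw [h0, ls_nil]
      simp
    obtain ⟨a, ha⟩ := nonempty_iff_ne_empty.2 h0
    have h1 : 2 ≤ F.card := by
      obtain ⟨m, hm⟩ := hev
      have := card_pos.2 ⟨a, ha⟩
      omega
    obtain ⟨b, hb⟩ : (F.erase a).Nonempty := by
      rw [← card_pos, card_erase_of_mem ha]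
      omega
    have hcard : ((F.erase a).erase b).card = F.card - 2 := by
      rw [card_erase_of_mem hb, card_erase_of_mem ha]
      omega
    obtain ⟨M, hM⟩ := ih ((F.erase a).erase b) (by omega) (by
      rw [hcard]
      obtain ⟨m, hm⟩ := hev
      exact ⟨m - 1, by omega⟩)
    refine ⟨(a, b) :: M, fun X => ?_⟩
    have hs : ∀ f : V → ℤ, ∑ v ∈ F, f v = ∑ v ∈ (F.erase a).erase b, f v + f b + f a := by
      intro f
      rw [sum_erase_add _ _ hb, sum_erase_add _ _ ha]
    obtain ⟨m1, m2, m3⟩ := hM X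
    rw [ls_cons, hs, hs]
    have hab : |ind X a - ind X b| ≤ (1 - ind X b) + (1 - ind X a) ∧
        |ind X a - ind X b| ≤ ind X b + ind X a ∧
        (2 : ℤ) ∣ |ind X a - ind X b| - (ind X b + ind X a) := by
      unfold ind
      split_ifs <;> norm_num
    obtain ⟨n1, n2, n3⟩ := hab
    refine ⟨by linarith, by linarith, ?_⟩
    have h5 := dvd_add n3 m3
    have h6 : |ind X a - ind X b| + ls M X -
        (∑ v ∈ (F.erase a).erase b, ind X v + ind X b + ind X a) =
        |ind X a - ind X b| - (ind X b + ind X a) +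
          (ls M X - ∑ v ∈ (F.erase a).erase b, ind X v) := by ring
    rw [h6]
    exact h5

/-- pairing of a nonempty set, one point is left over if its size is odd -/
theorem mt_cls (F : Finset V) (hF : F.Nonempty) : ∃ r ∈ F, ∃ M : List (V × V),
    ∀ X : Finset V, ls M X + ((F.card % 2 : ℕ) : ℤ) * (1 - ind X r) ≤ ∑ v ∈ F, (1 - ind X v) ∧
      ls M X ≤ ∑ v ∈ F, ind X v ∧
      (2 : ℤ) ∣ ls M X + ((F.card % 2 : ℕ) : ℤ) * ind X r - ∑ v ∈ F, ind X v := by
  obtain ⟨r, hr⟩ := hF
  refine ⟨r, hr, ?_⟩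
  rcases Nat.even_or_odd F.card with he | ho
  · obtain ⟨M, hM⟩ := mt_even _ F le_rfl he
    refine ⟨M, fun X => ?_⟩
    obtain ⟨m1, m2, m3⟩ := hM X
    rw [Nat.even_iff.1 he]
    simp only [Nat.cast_zero, zero_mul, add_zero]
    exact ⟨m1, m2, m3⟩
  · have hc : (F.erase r).card = F.card - 1 := card_erase_of_mem hr
    obtain ⟨M, hM⟩ := mt_even _ (F.erase r) le_rfl (by
      rw [hc]
      obtain ⟨m, hm⟩ := ho
      exact ⟨m, by omega⟩)
    refine ⟨M, fun X => ?_⟩
    obtain ⟨m1, m2, m3⟩ := hM X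
    rw [Nat.odd_iff.1 ho]
    simp only [Nat.cast_one, one_mul]
    have hs : ∀ f : V → ℤ, ∑ v ∈ F, f v = ∑ v ∈ F.erase r, f v + f r := fun f =>
      (sum_erase_add _ _ hr).symm
    rw [hs, hs]
    have h0 := ind_nonneg X r
    refine ⟨by linarith, by linarith, ?_⟩
    have h6 : ls M X + ind X r - (∑ v ∈ F.erase r, ind X v + ind X r) =
        ls M X - ∑ v ∈ F.erase r, ind X v := by ring
    rw [h6]
    exact m3

/-- a list of pairs with the sum of the separation functions -/
theorem ls_union {C : Type} [DecidableEq C] (M : C → List (V × V)) (I : Finset C) :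
    ∃ H : List (V × V), ∀ X, ls H X = ∑ c ∈ I, ls (M c) X := by
  induction I using Finset.induction_on with
  | empty => exact ⟨[], fun X => by rw [ls_nil, sum_empty]⟩
  | insert a s ha ih =>
    obtain ⟨H, hH⟩ := ih
    exact ⟨M a ++ H, fun X => by rw [ls_append, hH, sum_insert ha]⟩

/-- sums over the ends of a list of pairs -/
theorem sum_ends (G : List (V × V)) (f : V → ℤ) :
    (G.map fun e => f e.1 + f e.2).sum = ∑ v, f v * ld G v := by
  induction G with
  | nil => simp [ld]
  | cons e G ih =>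
    rw [List.map_cons, List.sum_cons, ih]
    simp only [ld_cons]
    have h1 : ∀ a : V, ∑ v, f v * ind {v} a = f a := by
      intro a
      rw [Finset.sum_eq_single a]
      · simp [ind]
      · intro b _ hb
        rw [ind_of_not_mem (by rw [mem_singleton]; exact hb.symm), mul_zero]
      · intro h
        exact absurd (mem_univ _) h
    have h2 : ∑ v, f v * (ind {v} e.1 + ind {v} e.2 + ld G v) =
        ∑ v, f v * ind {v} e.1 + ∑ v, f v * ind {v} e.2 + ∑ v, f v * ld G v := by
      rw [← Finset.sum_add_distrib, ← Finset.sum_add_distrib]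
      refine Finset.sum_congr rfl fun v _ => ?_
      ring
    rw [h2, h1, h1]

variable {W : Type} [Fintype W] [DecidableEq W]

/-- separation function of the image of a list of pairs: comparison -/
theorem ls_image_le (G : List (W × W)) (ρ : W → V) (X : Finset V) (Y : Finset W) :
    ls (G.map fun e => (ρ e.1, ρ e.2)) X ≤ ls G Y + ∑ w, |ind X (ρ w) - ind Y w| * ld G w := by
  rw [← sum_ends G fun w => |ind X (ρ w) - ind Y w|]
  induction G with
  | nil => simp [ls]
  | cons e G ih =>
    rw [List.map_cons, ls_cons, ls_cons, List.map_cons, List.sum_cons]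
    have h1 : |ind X (ρ e.1) - ind X (ρ e.2)| ≤ |ind Y e.1 - ind Y e.2| +
        (|ind X (ρ e.1) - ind Y e.1| + |ind X (ρ e.2) - ind Y e.2|) := by
      unfold ind
      split_ifs <;> norm_num
    have h2 : ls (G.map fun e => (ρ e.1, ρ e.2)) X ≤
        ls G Y + (G.map fun e => |ind X (ρ e.1) - ind Y e.1| + |ind X (ρ e.2) - ind Y e.2|).sum := ih
    linarith

/-- parity of the separation function of the image -/
theorem ls_image_par (G : List (W × W)) (ρ : W → V) (X : Finset V) :
    (2 : ℤ) ∣ ls (G.map fun e => (ρ e.1, ρ e.2)) X - ∑ w, ind X (ρ w) * ld G w := by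
  rw [← sum_ends G fun w => ind X (ρ w)]
  induction G with
  | nil => simp [ls]
  | cons e G ih =>
    rw [List.map_cons, ls_cons, List.map_cons, List.sum_cons]
    have h1 : (2 : ℤ) ∣ |ind X (ρ e.1) - ind X (ρ e.2)| - (ind X (ρ e.1) + ind X (ρ e.2)) := by
      unfold ind
      split_ifs <;> norm_num
    have h2 := dvd_add h1 ih
    have h3 : |ind X (ρ e.1) - ind X (ρ e.2)| - (ind X (ρ e.1) + ind X (ρ e.2)) +
        (ls (G.map fun e => (ρ e.1, ρ e.2)) X - (G.map fun e => ind X (ρ e.1) + ind X (ρ e.2)).sum) =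
        |ind X (ρ e.1) - ind X (ρ e.2)| + ls (G.map fun e => (ρ e.1, ρ e.2)) X -
        (ind X (ρ e.1) + ind X (ρ e.2) + (G.map fun e => ind X (ρ e.1) + ind X (ρ e.2)).sum) := by
      ring
    rw [h3] at h2
    exact h2

end Pool.Agent.Dj3
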