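import Pool.Agent.H.MP_3adc02_co.tr.Trim
import Pool.Agent.H.MP_3adc02_co.tr.Mt

/-!
# The merged structure
-/

set_option linter.unusedSectionVars false

namespace Pool.Agent.Dj3

open Finset Pool.Agent.Dj Pool.Agent.Dj2

variable {V : Type} [Fintype V] [DecidableEq V]

/-- the used pairs -/
abbrev Cs (Q : Finset V) (B : V → Finset V) : Type := {c : Finset V // c ∈ Q.image B}

/-- the merged ring family -/
def mg (L : Finset (Finset V)) (Q : Finset V) (B : V → Finset V) : Finset (Finset (V ⊕ Cs Q B)) :=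
  univ.filter fun Z => Z.toLeft ∈ L ∧ (∀ c : Cs Q B, c ∈ Z.toRight → c.1 ⊆ Z.toLeft) ∧
    ∀ u ∈ Q, u ∈ Z.toLeft → ∀ c : Cs Q B, c.1 = B u → c ∈ Z.toRight

/-- the points of `Q` in a class -/
def cf (Q : Finset V) (B : V → Finset V) (c : Finset V) : Finset V := Q.filter fun u => B u = c

/-- the merged vector -/
def mx (x : V → ℤ) (Q : Finset V) (B : V → Finset V) : V ⊕ Cs Q B → ℤ :=
  Sum.elim (fun v => x v + if v ∈ Q then 1 else 0) fun c => -((cf Q B c.1).card : ℤ)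

variable {L : Finset (Finset V)} {Q : Finset V} {B : V → Finset V}

theorem mem_mg {Z : Finset (V ⊕ Cs Q B)} : Z ∈ mg L Q B ↔ Z.toLeft ∈ L ∧
    (∀ c : Cs Q B, c ∈ Z.toRight → c.1 ⊆ Z.toLeft) ∧
    ∀ u ∈ Q, u ∈ Z.toLeft → ∀ c : Cs Q B, c.1 = B u → c ∈ Z.toRight := by
  unfold mg
  rw [mem_filter]
  exact ⟨And.right, fun h => ⟨mem_univ _, h⟩⟩

theorem mem_cf {c : Finset V} {u : V} : u ∈ cf Q B c ↔ u ∈ Q ∧ B u = c := mem_filter

theorem cf_nonempty (c : Cs Q B) : (cf Q B c.1).Nonempty := by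
  obtain ⟨u, hu, h⟩ := mem_image.1 c.2
  exact ⟨u, mem_cf.2 ⟨hu, h⟩⟩

theorem rg_mg (hL : Rg L) : Rg (mg L Q B) where
  bot := by
    rw [mem_mg]
    refine ⟨?_, fun c hc => ?_, fun u _ hu => ?_⟩
    · have : (∅ : Finset (V ⊕ Cs Q B)).toLeft = ∅ := by ext v; simp
      rw [this]
      exact hL.bot
    · rw [mem_toRight] at hc
      exact absurd hc (notMem_empty _)
    · rw [mem_toLeft] at hu
      exact absurd hu (notMem_empty _)
  top := by
    have h1 : (univ : Finset (V ⊕ Cs Q B)).toLeft = univ := by ext v; simp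
    rw [mem_mg, h1]
    refine ⟨hL.top, fun c _ => subset_univ _, fun u _ _ c _ => ?_⟩
    rw [mem_toRight]
    exact mem_univ _
  cap := fun X hX Y hY => by
    rw [mem_mg] at hX hY ⊢
    rw [toLeft_inter, toRight_inter]
    refine ⟨hL.cap _ hX.1 _ hY.1, fun c hc => ?_, fun u hu hu1 c hc => ?_⟩
    · obtain ⟨h1, h2⟩ := mem_inter.1 hc
      exact subset_inter (hX.2.1 c h1) (hY.2.1 c h2)
    · obtain ⟨h1, h2⟩ := mem_inter.1 hu1
      exact mem_inter.2 ⟨hX.2.2 u hu h1 c hc, hY.2.2 u hu h2 c hc⟩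
  cup := fun X hX Y hY => by
    rw [mem_mg] at hX hY ⊢
    rw [toLeft_union, toRight_union]
    refine ⟨hL.cup _ hX.1 _ hY.1, fun c hc => ?_, fun u hu hu1 c hc => ?_⟩
    · rcases mem_union.1 hc with h | h
      · exact (hX.2.1 c h).trans subset_union_left
      · exact (hY.2.1 c h).trans subset_union_right
    · rcases mem_union.1 hu1 with h | h
      · exact mem_union_left _ (hX.2.2 u hu h c hc)
      · exact mem_union_right _ (hY.2.2 u hu h c hc)

/-- the largest extension of a set -/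
def up (Q : Finset V) (B : V → Finset V) (X : Finset V) : Finset (V ⊕ Cs Q B) :=
  X.disjSum (univ.filter fun c : Cs Q B => c.1 ⊆ X)

theorem toLeft_up (X : Finset V) : (up Q B X).toLeft = X := toLeft_disjSum

theorem mem_up_right {X : Finset V} {c : Cs Q B} : Sum.inr c ∈ up Q B X ↔ c.1 ⊆ X := by
  unfold up
  rw [inr_mem_disjSum, mem_filter]
  exact ⟨And.right, fun h => ⟨mem_univ _, h⟩⟩

theorem mem_up_left {X : Finset V} {v : V} : (Sum.inl v : V ⊕ Cs Q B) ∈ up Q B X ↔ v ∈ X :=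
  inl_mem_disjSum

theorem up_mem (hB : ∀ u ∈ Q, B u ⊆ dn L u) {X : Finset V} (hX : X ∈ L) : up Q B X ∈ mg L Q B := by
  rw [mem_mg, toLeft_up]
  refine ⟨hX, fun c hc => ?_, fun u hu hu1 c hc => ?_⟩
  · rw [mem_toRight] at hc
    exact mem_up_right.1 hc
  · rw [mem_toRight, mem_up_right, hc]
    exact (hB u hu).trans (dn_sub hX hu1)

/-- separation -/
theorem sep_mg (hL : Rg L) (hs : Sep L) (hB : ∀ u ∈ Q, B u ⊆ (dn L u).erase u) :
    Sep (mg L Q B) := by
  have hB' : ∀ u ∈ Q, B u ⊆ dn L u := fun u hu => (hB u hu).trans (erase_subset _ _)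
  -- a pair is separated from every other point
  have key : ∀ (c : Cs Q B) (p : V ⊕ Cs Q B), p ≠ Sum.inr c →
      ¬ ∀ Z ∈ mg L Q B, (Sum.inr c ∈ Z ↔ p ∈ Z) := by
    intro c p hp h
    obtain ⟨X, hX⟩ : ∃ X, X = c.1.biUnion (dn L) := ⟨_, rfl⟩
    have hXL : X ∈ L := by
      rw [hX]
      exact hL.biUnion _ _ fun i _ => dn_mem hL i
    have hcX : c.1 ⊆ X := by
      intro v hv
      rw [hX]
      exact mem_biUnion.2 ⟨v, hv, self_dn L v⟩
    have h1 := h _ (up_mem hB' hXL)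
    have h2 : (up Q B X).erase (Sum.inr c) ∈ mg L Q B := by
      have hl : ((up Q B X).erase (Sum.inr c)).toLeft = X := by
        ext v
        rw [mem_toLeft, mem_erase, mem_up_left]
        exact ⟨And.right, fun h => ⟨Sum.inl_ne_inr, h⟩⟩
      rw [mem_mg, hl]
      refine ⟨hXL, fun d hd => ?_, fun u hu hu1 d hd => ?_⟩
      · rw [mem_toRight, mem_erase, mem_up_right] at hd
        exact hd.2
      · rw [mem_toRight, mem_erase, mem_up_right]
        refine ⟨fun he => ?_, ?_⟩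
        · have h3 : d = c := Sum.inr_injective he
          rw [h3] at hd
          rw [hX, mem_biUnion] at hu1
          obtain ⟨s, hs1, hs2⟩ := hu1
          rw [hd] at hs1
          obtain ⟨h4, h5⟩ := mem_erase.1 (hB u hu hs1)
          exact h4 (dn_antisymm hs h5 hs2)
        · rw [hd]
          exact (hB' u hu).trans (dn_sub hXL hu1)
    have h3 := h _ h2
    rw [mem_erase, mem_erase] at h3
    have h4 : p ∈ up Q B X := h1.1 (mem_up_right.2 hcX)
    exact (h3.2 ⟨hp, h4⟩).1 rfl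
  intro p q hpq
  rcases p with u | c
  · rcases q with v | d
    · have h1 : u = v := hs u v fun X hX => by
        have h2 := hpq _ (up_mem hB' hX)
        rw [mem_up_left, mem_up_left] at h2
        exact h2
      rw [h1]
    · exact absurd (fun Z hZ => (hpq Z hZ).symm) (key d (Sum.inl u) Sum.inl_ne_inr)
  · by_contra hne
    exact key c q (fun h => hne h.symm) hpq

/-- sums over classes -/
theorem sum_cf (I : Finset (Cs Q B)) (g : V → ℤ) :
    ∑ c ∈ I, ∑ u ∈ cf Q B c.1, g u = ∑ u ∈ Q.filter fun u => ∃ c ∈ I, c.1 = B u, g u := by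
  rw [← sum_biUnion]
  · refine sum_congr ?_ fun _ _ => rfl
    ext u
    rw [mem_biUnion, mem_filter]
    constructor
    · rintro ⟨c, hc, hu⟩
      obtain ⟨h1, h2⟩ := mem_cf.1 hu
      exact ⟨h1, c, hc, h2.symm⟩
    · rintro ⟨h1, c, hc, h2⟩
      exact ⟨c, hc, mem_cf.2 ⟨h1, h2.symm⟩⟩
  · intro c _ d _ hcd
    rw [Function.onFun, disjoint_left]
    intro u hu hu'
    apply hcd
    apply Subtype.ext
    rw [← (mem_cf.1 hu).2, (mem_cf.1 hu').2]

theorem sum_mx (x : V → ℤ) (Z : Finset (V ⊕ Cs Q B)) :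
    ∑ p ∈ Z, mx x Q B p = ∑ v ∈ Z.toLeft, x v + ((Z.toLeft ∩ Q).card : ℤ) -
      ((Q.filter fun u => ∃ c ∈ Z.toRight, c.1 = B u).card : ℤ) := by
  rw [sum_sum_eq_sum_toLeft_add_sum_toRight]
  have h1 : ∑ v ∈ Z.toLeft, mx x Q B (Sum.inl v) =
      ∑ v ∈ Z.toLeft, x v + ((Z.toLeft ∩ Q).card : ℤ) := by
    show ∑ v ∈ Z.toLeft, (x v + if v ∈ Q then 1 else 0) = _
    rw [sum_add_distrib, sum_boole, filter_mem_eq_inter]
  have h2 : ∑ c ∈ Z.toRight, mx x Q B (Sum.inr c) =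
      -((Q.filter fun u => ∃ c ∈ Z.toRight, c.1 = B u).card : ℤ) := by
    show ∑ c ∈ Z.toRight, -((cf Q B c.1).card : ℤ) = _
    rw [sum_neg_distrib]
    congr 1
    have h3 := sum_cf Z.toRight (fun _ => (1 : ℤ))
    simp only [sum_const, nsmul_eq_mul, mul_one] at h3
    exact h3
  rw [h1, h2]
  ring

theorem fr_mg {n : ℤ} {x : V → ℤ} (hx : Fr L n x)
    (h0 : ∀ u ∈ Q, (B u).Nonempty) (hT : Tm L n x Q B) : Fr (mg L Q B) n (mx x Q B) := by
  constructor
  · rw [sum_mx]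
    have h1 : (univ : Finset (V ⊕ Cs Q B)).toLeft = univ := by ext v; simp
    have h2 : (Q.filter fun u => ∃ c ∈ (univ : Finset (V ⊕ Cs Q B)).toRight, c.1 = B u) = Q := by
      rw [filter_true_of_mem]
      intro u hu
      exact ⟨⟨B u, mem_image_of_mem B hu⟩, by rw [mem_toRight]; exact mem_univ _, rfl⟩
    rw [h1, h2, hx.1, univ_inter]
    ring
  · intro Z hZ hne hun
    obtain ⟨h1, h2, h3⟩ := mem_mg.1 hZ
    rw [sum_mx]
    have hne' : Z.toLeft.Nonempty := by
      obtain ⟨p, hp⟩ := hne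
      rcases p with v | c
      · exact ⟨v, mem_toLeft.2 hp⟩
      · obtain ⟨u, hu, hc⟩ := mem_image.1 c.2
        obtain ⟨v, hv⟩ := h0 u hu
        rw [hc] at hv
        exact ⟨v, h2 c (mem_toRight.2 hp) hv⟩
    have hun' : Z.toLeft ≠ univ := by
      intro h
      apply hun
      rw [eq_univ_iff_forall]
      rintro (v | c)
      · rw [← mem_toLeft, h]
        exact mem_univ _
      · obtain ⟨u, hu, hc⟩ := mem_image.1 c.2
        rw [← mem_toRight]
        exact h3 u hu (by rw [h]; exact mem_univ _) c hc.symm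
    have h4 := hT _ h1 hne' hun'
    have h5 : (Q.filter fun u => ∃ c ∈ Z.toRight, c.1 = B u) ⊆
        (Z.toLeft ∩ Q) ∪ dd Q B Z.toLeft := by
      intro u hu
      obtain ⟨hu1, c, hc, hcu⟩ := mem_filter.1 hu
      by_cases hu2 : u ∈ Z.toLeft
      · exact mem_union_left _ (mem_inter.2 ⟨hu2, hu1⟩)
      · refine mem_union_right _ (mem_dd.2 ⟨hu1, hu2, ?_⟩)
        rw [← hcu]
        exact h2 c hc
    have h6 : ((Q.filter fun u => ∃ c ∈ Z.toRight, c.1 = B u).card : ℤ) ≤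
        ((Z.toLeft ∩ Q).card : ℤ) + ((dd Q B Z.toLeft).card : ℤ) := by
      exact_mod_cast (card_le_card h5).trans (card_union_le _ _)
    linarith

/-- the sum over the largest extension -/
theorem sum_up (hB : ∀ u ∈ Q, B u ⊆ dn L u) (x : V → ℤ) {X : Finset V} (hX : X ∈ L) :
    ∑ p ∈ up Q B X, mx x Q B p = ∑ v ∈ X, x v - ((dd Q B X).card : ℤ) := by
  rw [sum_mx, toLeft_up]
  have h1 : (Q.filter fun u => ∃ c ∈ (up Q B X).toRight, c.1 = B u) = (X ∩ Q) ∪ dd Q B X := by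
    ext u
    rw [mem_filter, mem_union, mem_inter, mem_dd]
    constructor
    · rintro ⟨hu1, c, hc, hcu⟩
      rw [mem_toRight, mem_up_right, hcu] at hc
      by_cases hu2 : u ∈ X
      · exact Or.inl ⟨hu2, hu1⟩
      · exact Or.inr ⟨hu1, hu2, hc⟩
    · rintro (⟨hu1, hu2⟩ | ⟨hu1, hu2, hu3⟩)
      · refine ⟨hu2, ⟨B u, mem_image_of_mem B hu2⟩, ?_, rfl⟩
        rw [mem_toRight, mem_up_right]
        exact (hB u hu2).trans (dn_sub hX hu1)
      · refine ⟨hu1, ⟨B u, mem_image_of_mem B hu1⟩, ?_, rfl⟩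
        rw [mem_toRight, mem_up_right]
        exact hu3
  have h2 : Disjoint (X ∩ Q) (dd Q B X) := by
    rw [disjoint_left]
    intro u hu hu'
    exact (mem_dd.1 hu').2.1 (mem_inter.1 hu).1
  rw [h1, card_union_of_disjoint h2]
  push_cast
  ring

end Pool.Agent.Dj3
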