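import Pool.Agent.H.MP_3adc02_co.fs.Def

/-!
# Trimming the sets of predecessors to pairs
-/

set_option linter.unusedSectionVars false

namespace Pool.Agent.Dj3

open Finset Pool.Agent.Dj Pool.Agent.Dj2

variable {V : Type} [Fintype V] [DecidableEq V]

/-- the points of `Q` outside `X` with `B u ⊆ X` -/
def dd (Q : Finset V) (B : V → Finset V) (X : Finset V) : Finset V :=
  Q.filter fun u => u ∉ X ∧ B u ⊆ X

theorem mem_dd {Q : Finset V} {B : V → Finset V} {X : Finset V} {u : V} :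
    u ∈ dd Q B X ↔ u ∈ Q ∧ u ∉ X ∧ B u ⊆ X := mem_filter

/-- the trimmed structure is feasible -/
def Tm (L : Finset (Finset V)) (n : ℤ) (x : V → ℤ) (Q : Finset V) (B : V → Finset V) : Prop :=
  ∀ X ∈ L, X.Nonempty → X ≠ univ → n + (dd Q B X).card ≤ ∑ v ∈ X, x v

/-- the number of points is supermodular -/
theorem dd_super {L : Finset (Finset V)} {Q : Finset V} {B : V → Finset V}
    (hB : ∀ u ∈ Q, B u ⊆ dn L u) {X Y : Finset V} (hX : X ∈ L) (hY : Y ∈ L) {u₀ : V}
    (h₀ : u₀ ∈ dd Q B (X ∪ Y)) (h₁ : u₀ ∉ dd Q B X) (h₂ : u₀ ∉ dd Q B Y) :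
    (dd Q B X).card + (dd Q B Y).card + 1 ≤ (dd Q B (X ∩ Y)).card + (dd Q B (X ∪ Y)).card := by
  have key : (dd Q B X).card + (dd Q B Y).card < (dd Q B (X ∩ Y)).card + (dd Q B (X ∪ Y)).card := by
    have e : ∀ Z, (dd Q B Z).card = ∑ u ∈ Q, if u ∉ Z ∧ B u ⊆ Z then 1 else 0 := fun Z =>
      card_filter _ _
    rw [e, e, e, e, ← sum_add_distrib, ← sum_add_distrib]
    have hin : ∀ u ∈ Q, (if u ∉ X ∧ B u ⊆ X then 1 else 0) + (if u ∉ Y ∧ B u ⊆ Y then 1 else 0) ≤
        (if u ∉ X ∩ Y ∧ B u ⊆ X ∩ Y then 1 else 0) +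
          (if u ∉ X ∪ Y ∧ B u ⊆ X ∪ Y then 1 else 0) := by
      intro u hu
      have a1 : u ∈ X → B u ⊆ X := fun h => (hB u hu).trans (dn_sub hX h)
      have a2 : u ∈ Y → B u ⊆ Y := fun h => (hB u hu).trans (dn_sub hY h)
      have a3 : B u ⊆ X → B u ⊆ X ∪ Y := fun h => h.trans subset_union_left
      have a4 : B u ⊆ Y → B u ⊆ X ∪ Y := fun h => h.trans subset_union_right
      simp only [mem_inter, mem_union, subset_inter_iff]
      by_cases b1 : u ∈ X <;> by_cases b2 : u ∈ Y <;> by_cases b3 : B u ⊆ X <;>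
        by_cases b4 : B u ⊆ Y <;> simp_all
    obtain ⟨c1, c2, c3⟩ := mem_dd.1 h₀
    refine sum_lt_sum hin ⟨u₀, c1, ?_⟩
    have d1 : ¬ (u₀ ∉ X ∧ B u₀ ⊆ X) := fun h => h₁ (mem_dd.2 ⟨c1, h⟩)
    have d2 : ¬ (u₀ ∉ Y ∧ B u₀ ⊆ Y) := fun h => h₂ (mem_dd.2 ⟨c1, h⟩)
    rw [if_neg d1, if_neg d2, if_pos (⟨c2, c3⟩ : u₀ ∉ X ∪ Y ∧ B u₀ ⊆ X ∪ Y)]
    omega
  exact key

/-- if a point cannot be trimmed further by `s` then there is a tight set -/
theorem trim_fail {L : Finset (Finset V)} {n : ℤ} {x : V → ℤ} {Q : Finset V} {B : V → Finset V}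
    (hT : Tm L n x Q B) {u₀ s : V} (h : ¬ Tm L n x Q (Function.update B u₀ ((B u₀).erase s))) :
    ∃ X ∈ L, X.Nonempty ∧ X ≠ univ ∧ u₀ ∉ X ∧ (B u₀).erase s ⊆ X ∧ s ∉ X ∧
      ∑ v ∈ X, x v = n + (dd Q B X).card := by
  unfold Tm at h
  push Not at h
  obtain ⟨X, hX, h1, h2, h3⟩ := h
  have h4 := hT X hX h1 h2
  have hlt : (dd Q B X).card < (dd Q (Function.update B u₀ ((B u₀).erase s)) X).card := by
    have : ((dd Q B X).card : ℤ) < (dd Q (Function.update B u₀ ((B u₀).erase s)) X).card := by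
      linarith
    exact_mod_cast this
  obtain ⟨u, hu, hu'⟩ := exists_mem_notMem_of_card_lt_card hlt
  obtain ⟨c1, c2, c3⟩ := mem_dd.1 hu
  have hu0 : u = u₀ := by
    by_contra hne
    rw [Function.update_of_ne hne] at c3
    exact hu' (mem_dd.2 ⟨c1, c2, c3⟩)
  subst hu0
  rw [Function.update_self] at c3
  have hs : s ∉ X := by
    intro hs
    apply hu'
    refine mem_dd.2 ⟨c1, c2, fun v hv => ?_⟩
    by_cases hvs : v = s
    · rw [hvs]; exact hs
    · exact c3 (mem_erase.2 ⟨hvs, hv⟩)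
  refine ⟨X, hX, h1, h2, c2, c3, hs, ?_⟩
  have hsub : dd Q (Function.update B u ((B u).erase s)) X ⊆ insert u (dd Q B X) := by
    intro v hv
    by_cases hvu : v = u
    · rw [hvu]; exact mem_insert_self _ _
    · obtain ⟨d1, d2, d3⟩ := mem_dd.1 hv
      rw [Function.update_of_ne hvu] at d3
      exact mem_insert_of_mem (mem_dd.2 ⟨d1, d2, d3⟩)
  have hle := (card_le_card hsub).trans (card_insert_le _ _)
  have hle' : ((dd Q (Function.update B u ((B u).erase s)) X).card : ℤ) ≤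
      (dd Q B X).card + 1 := by exact_mod_cast hle
  linarith

/-- TRIM: the sets `B u` can be made pairs. -/
theorem trim {L : Finset (Finset V)} (hL : Rg L) {n : ℤ} {x : V → ℤ} (Q : Finset V) :
    ∀ (N : ℕ) (B : V → Finset V), ∑ u ∈ Q, (B u).card ≤ N →
      (∀ u ∈ Q, B u ⊆ (dn L u).erase u ∧ 2 ≤ (B u).card) → Tm L n x Q B →
      ∃ B' : V → Finset V, (∀ u ∈ Q, B' u ⊆ (dn L u).erase u ∧ (B' u).card = 2) ∧
        Tm L n x Q B' := by
  intro N
  induction N with
  | zero =>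
    intro B hN hB hT
    refine ⟨B, fun u hu => ?_, hT⟩
    have h1 := (hB u hu).2
    have h2 : (B u).card ≤ ∑ u ∈ Q, (B u).card :=
      single_le_sum (f := fun u => (B u).card) (fun _ _ => Nat.zero_le _) hu
    omega
  | succ N ih =>
    intro B hN hB hT
    by_cases h3 : ∃ u₀ ∈ Q, 3 ≤ (B u₀).card
    swap
    · refine ⟨B, fun u hu => ⟨(hB u hu).1, ?_⟩, hT⟩
      have h1 := (hB u hu).2
      have h2 : ¬ 3 ≤ (B u).card := fun h => h3 ⟨u, hu, h⟩
      omega
    obtain ⟨u₀, hu₀, h4⟩ := h3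
    by_cases h5 : ∃ s ∈ B u₀, Tm L n x Q (Function.update B u₀ ((B u₀).erase s))
    · obtain ⟨s, hs, h6⟩ := h5
      refine ih _ ?_ ?_ h6
      · have h7 : ∑ u ∈ Q, (Function.update B u₀ ((B u₀).erase s) u).card <
            ∑ u ∈ Q, (B u).card := by
          refine sum_lt_sum (fun u _ => ?_) ⟨u₀, hu₀, ?_⟩
          · by_cases hu : u = u₀
            · rw [hu, Function.update_self]
              exact card_le_card (erase_subset _ _)
            · rw [Function.update_of_ne hu]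
          · rw [Function.update_self]
            exact card_erase_lt_of_mem hs
        omega
      · intro u hu
        by_cases hu' : u = u₀
        · rw [hu', Function.update_self]
          refine ⟨(erase_subset _ _).trans (hB u₀ hu₀).1, ?_⟩
          rw [card_erase_of_mem hs]
          omega
        · rw [Function.update_of_ne hu']
          exact hB u hu
    · exfalso
      push Not at h5
      obtain ⟨s, hs, t, ht, hst⟩ := one_lt_card.1 (by omega : 1 < (B u₀).card)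
      obtain ⟨X, hX, -, -, a3, a4, a5, a6⟩ := trim_fail hT (h5 s hs)
      obtain ⟨Y, hY, -, -, b3, b4, b5, b6⟩ := trim_fail hT (h5 t ht)
      obtain ⟨r, hr⟩ : (((B u₀).erase s).erase t).Nonempty := by
        rw [← card_pos, card_erase_of_mem (mem_erase.2 ⟨hst.symm, ht⟩), card_erase_of_mem hs]
        omega
      obtain ⟨hr1, hr2⟩ := mem_erase.1 hr
      obtain ⟨hr3, hr4⟩ := mem_erase.1 hr2
      have c1 : r ∈ X := a4 (mem_erase.2 ⟨hr3, hr4⟩)
      have c2 : r ∈ Y := b4 (mem_erase.2 ⟨hr1, hr4⟩)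
      have d1 : u₀ ∉ X ∪ Y := by
        rw [mem_union]
        rintro (h | h)
        · exact a3 h
        · exact b3 h
      have d2 : B u₀ ⊆ X ∪ Y := by
        intro v hv
        by_cases hvs : v = s
        · exact mem_union_right _ (b4 (mem_erase.2 ⟨by rw [hvs]; exact hst, hv⟩))
        · exact mem_union_left _ (a4 (mem_erase.2 ⟨hvs, hv⟩))
      have e1 := hT (X ∩ Y) (hL.cap X hX Y hY) ⟨r, mem_inter.2 ⟨c1, c2⟩⟩ (fun h => by
        apply a3
        exact (mem_inter.1 (h ▸ mem_univ u₀ : u₀ ∈ X ∩ Y)).1)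
      have e2 := hT (X ∪ Y) (hL.cup X hX Y hY) ⟨r, mem_union_left _ c1⟩ (fun h => by
        apply d1
        rw [h]
        exact mem_univ _)
      have e3 := dd_super (fun u hu => (hB u hu).1.trans (erase_subset _ _)) hX hY
        (mem_dd.2 ⟨hu₀, d1, d2⟩) (fun h => a5 ((mem_dd.1 h).2.2 hs))
        (fun h => b5 ((mem_dd.1 h).2.2 ht))
      have e4 : ∑ v ∈ X ∪ Y, x v + ∑ v ∈ X ∩ Y, x v = ∑ v ∈ X, x v + ∑ v ∈ Y, x v :=
        sum_union_inter
      have e5 : ((dd Q B X).card : ℤ) + (dd Q B Y).card + 1 ≤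
          (dd Q B (X ∩ Y)).card + (dd Q B (X ∪ Y)).card := by exact_mod_cast e3
      linarith

/-- the sets of all predecessors give a feasible structure -/
theorem tm_pred {L : Finset (Finset V)} (hL : Rg L) {n : ℤ} (hn : 2 ∣ n) (hn0 : 0 ≤ n)
    {x : V → ℤ} (hx : Fr L n x) (Q : Finset V) (hQ : ∀ u ∈ Q, x u < 0 ∧ ¬ 2 ∣ x u) :
    Tm L n x Q fun u => (dn L u).erase u := by
  intro X hX h1 h2
  obtain ⟨B, hB⟩ : ∃ B : V → Finset V, B = fun u => (dn L u).erase u := ⟨_, rfl⟩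
  rw [← hB]
  obtain ⟨U, hU⟩ : ∃ U, U = dd Q B X := ⟨_, rfl⟩
  rw [← hU]
  have hU1 : ∀ u ∈ U, u ∈ Q ∧ u ∉ X ∧ (dn L u).erase u ⊆ X := by
    intro u hu
    rw [hU] at hu
    obtain ⟨b1, b2, b3⟩ := mem_dd.1 hu
    rw [hB] at b3
    exact ⟨b1, b2, b3⟩
  have hmem : ∀ W ⊆ U, X ∪ W ∈ L := by
    intro W hW
    have e : X ∪ W = X ∪ W.biUnion (dn L) := by
      ext v
      rw [mem_union, mem_union, mem_biUnion]
      constructor
      · rintro (h | h)
        · exact Or.inl h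
        · exact Or.inr ⟨v, h, self_dn L v⟩
      · rintro (h | ⟨w, hw, h⟩)
        · exact Or.inl h
        · by_cases hvw : v = w
          · rw [hvw]; exact Or.inr hw
          · exact Or.inl ((hU1 w (hW hw)).2.2 (mem_erase.2 ⟨hvw, h⟩))
    rw [e]
    exact hL.cup X hX _ (hL.biUnion _ _ fun i _ => dn_mem hL i)
  have hdisj : Disjoint X U := by
    rw [disjoint_right]
    exact fun u hu => (hU1 u hu).2.1
  have hsum : ∑ v ∈ X ∪ U, x v = ∑ v ∈ X, x v + ∑ v ∈ U, x v := sum_union hdisj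
  by_cases hun : X ∪ U = univ
  · have hUne : U.Nonempty := by
      rw [nonempty_iff_ne_empty]
      rintro h
      rw [h, union_empty] at hun
      exact h2 hun
    have hU2 : ∀ u ∈ U, x u ≤ -(n + 1) := by
      intro u hu
      have h3 := hx.2 (X ∪ U.erase u) (hmem _ (erase_subset _ _))
        (h1.mono subset_union_left) (fun h => by
          have h4 : u ∈ X ∪ U.erase u := h ▸ mem_univ u
          rcases mem_union.1 h4 with h5 | h5
          · exact (hU1 u hu).2.1 h5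
          · exact (mem_erase.1 h5).1 rfl)
      have h4 : ∑ v ∈ X ∪ U.erase u, x v = ∑ v ∈ X, x v + ∑ v ∈ U.erase u, x v :=
        sum_union (hdisj.mono_right (erase_subset _ _))
      have h5 : ∑ v ∈ U.erase u, x v + x u = ∑ v ∈ U, x v := sum_erase_add _ _ hu
      rw [hun, hx.1] at hsum
      have h6 : n ≤ - x u := by linarith
      have h7 : x u ≠ - n := by
        intro h
        apply (hQ u (hU1 u hu).1).2
        rw [h]
        exact (dvd_neg).2 hn
      have h8 : x u ≤ - n := by linarith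
      have h9 := lt_of_le_of_ne h8 h7
      linarith [Int.add_one_le_iff.2 h9]
    have h3 : ∑ v ∈ U, x v ≤ U.card • (-(n + 1)) := sum_le_card_nsmul _ _ _ hU2
    rw [nsmul_eq_mul] at h3
    rw [hun, hx.1] at hsum
    have h4 : (1 : ℤ) ≤ U.card := by exact_mod_cast hUne.card_pos
    nlinarith
  · have h3 := hx.2 (X ∪ U) (hmem U subset_rfl) (h1.mono subset_union_left) hun
    have h4 : ∑ v ∈ U, x v ≤ U.card • (-1 : ℤ) :=
      sum_le_card_nsmul _ _ _ fun u hu => by
        have := (hQ u (hU1 u hu).1).1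
        omega
    rw [nsmul_eq_mul] at h4
    linarith

end Pool.Agent.Dj3
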